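import Pool.Agent.H547.C9.Stm3
import Pool.Agent.H547.P3.Fricke2

set_option autoImplicit false

/-!
# The Fricke involution for the weighted block sums (`S_E3` of `Pool/Agent/H547/C9/Stm3.lean`)
-/

namespace Pool.Agent.H75.C9

open Finset Pool.Agent.H547.P3 Pool.Agent.H547.C9 Pool.Agent.Helper484_Domb

variable {p : ℕ} [hp : Fact p.Prime] {n : ℕ} {h : ZMod (p ^ 3)}

/-- the linear weight is a quadratic function -/
theorem wt_QP (a b : ZMod (p ^ 3)) (j : ℕ) :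
    QP (p : ZMod (p ^ 3)) (fun κ : ℕ => a * ((p : ZMod (p ^ 3)) * (κ : ZMod (p ^ 3)) + (j : ZMod (p ^ 3))) + b) :=
  ⟨a * j + b, a, 0, fun k => by ring⟩

theorem wt_ex (hh : 2 * h = 1) (a b : ZMod (p ^ 3)) (j : ℕ) (X : ZMod (p ^ 3)) :
    ex h (fun κ : ℕ => a * ((p : ZMod (p ^ 3)) * (κ : ZMod (p ^ 3)) + (j : ZMod (p ^ 3))) + b) X =
      a * ((p : ZMod (p ^ 3)) * X + (j : ZMod (p ^ 3))) + b := by
  rw [ex_eq hh (a := a * j + b) (b := a * p) (c := 0) (fun k => by ring)]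
  ring

/-- evaluation of the weighted sums -/
theorem WS_ex (hh : 2 * h = 1) {z ν : ZMod (p ^ 3)} (a b : ZMod (p ^ 3)) (hz : z ^ (p - 1) = 1 + (p : ZMod (p ^ 3)) * ν)
    (X : ZMod (p ^ 3)) :
    ex h (WS p a b z) X = pw h ((p : ZMod (p ^ 3)) * ν) X *
      ∑ j ∈ range p, (a * ((p : ZMod (p ^ 3)) * X + (j : ZMod (p ^ 3))) + b) * (gX h X j * z ^ j) := by
  have hP := p3_zero (p := p)
  have q1 : QP (p : ZMod (p ^ 3)) (fun κ => (z ^ (p - 1)) ^ κ) := by
    have := QP.exp hP hh ν 1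
    simpa only [one_mul, ← hz] using this
  have q2 : ∀ j ∈ range p, QP (p : ZMod (p ^ 3)) (fun κ => Gu p j κ * z ^ j) := fun j hj =>
    QP.mul hP (Gu_QP j (mem_range.mp hj)) (QP.const _ _)
  have q3 : ∀ j ∈ range p, QP (p : ZMod (p ^ 3))
      (fun κ : ℕ => (a * ((p : ZMod (p ^ 3)) * (κ : ZMod (p ^ 3)) + (j : ZMod (p ^ 3))) + b) * (Gu p j κ * z ^ j)) := fun j hj =>
    QP.mul hP (wt_QP a b j) (q2 j hj)
  have e : WS p a b z = fun κ : ℕ => (z ^ (p - 1)) ^ κ *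
      ∑ j ∈ range p, (a * ((p : ZMod (p ^ 3)) * (κ : ZMod (p ^ 3)) + (j : ZMod (p ^ 3))) + b) * (Gu p j κ * z ^ j) := rfl
  rw [e, ex_mul hP hh q1 (QP.sum _ q3), ex_zpow hP hh hz, ex_sum]
  congr 1
  refine sum_congr rfl fun j hj => ?_
  rw [ex_mul hP hh (wt_QP a b j) (q2 j hj), wt_ex hh, ex_mul hP hh (Gu_QP j (mem_range.mp hj)) (QP.const _ _), ex_const hh]
  rfl

/-- **Fricke with weights** -/
theorem frickeW (hp5 : 5 ≤ p) (hh : 2 * h = 1) (hn : p = 2 * n + 1) {z z' ν : ZMod (p ^ 3)}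
    (hzz : 4096 * z * z' = 1) (hz : z ^ (p - 1) = 1 + (p : ZMod (p ^ 3)) * ν) :
    ∃ c : ZMod (p ^ 3), c ^ 2 = 1 ∧ (∃ y : ZMod (p ^ 3), c = (-1) ^ n * z ^ n * (1 + (p : ZMod (p ^ 3)) * y)) ∧
      ∀ a b X, ex h (WS p a b z) X = -c * ex h (WS p a (a * h - b) z') (-X - h) := by
  have hP := p3_zero (p := p)
  have hpc : (p : ZMod (p ^ 3)) = 2 * n + 1 := by
    have := congrArg (Nat.cast : ℕ → ZMod (p ^ 3)) hn
    push_cast at this; exact this
  obtain ⟨τ, hτ⟩ := fermat hp.out (by omega) hn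
  set t := (p : ZMod (p ^ 3)) * τ with ht
  have ht3 : t ^ 3 = 0 := by rw [ht, mul_pow, hP, zero_mul]
  have hzu' : IsUnit z' := IsUnit.of_mul_eq_one (4096 * z) (by linear_combination hzz)
  obtain ⟨ν', hz'⟩ := fermat_unit hzu'
  have hν3 : ((p : ZMod (p ^ 3)) * ν) ^ 3 = 0 := by rw [mul_pow, hP, zero_mul]
  have hν3' : ((p : ZMod (p ^ 3)) * ν') ^ 3 = 0 := by rw [mul_pow, hP, zero_mul]
  -- the exponentials
  have hE : ∀ Y, pw h ((p : ZMod (p ^ 3)) * ν') Y * pw h ((p : ZMod (p ^ 3)) * ν) Y * pw h t (12 * Y) = 1 := by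
    intro Y
    have h12 : (4096 : ZMod (p ^ 3)) ^ (p - 1) = (1 + t) ^ 12 := by
      rw [← hτ, ← pow_mul, show p - 1 = 2 * n by omega, show (4096 : ZMod (p ^ 3)) = 4 ^ 6 by norm_num, ← pow_mul]
      congr 1; ring
    have h1 : (1 + (p : ZMod (p ^ 3)) * ν') * (1 + p * ν) * (1 + t) ^ 12 = 1 := by
      rw [← hz, ← hz', ← h12, ← mul_pow, ← mul_pow]
      have : z' * z * 4096 = 1 := by linear_combination hzz
      rw [this, one_pow]
    have h2 : ∃ a, (1 + t) ^ 12 = 1 + (p : ZMod (p ^ 3)) * a := by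
      rw [one_add_pow3 ht3 hh]
      exact ⟨12 * τ + h * (12 * 11) * (p * τ ^ 2), by rw [ht]; push_cast; ring⟩
    obtain ⟨a, ha⟩ := h2
    have h3 : pw h t (12 * Y) = pw h ((p : ZMod (p ^ 3)) * a) Y := by
      have e1 : (p : ZMod (p ^ 3)) * a = 12 * t + 66 * t ^ 2 := by
        have := one_add_pow3 ht3 hh 12
        rw [ha] at this
        push_cast at this
        linear_combination this + (66 * t ^ 2) * hh
      rw [e1]
      unfold pw
      linear_combination (66 * Y * t ^ 2) * hh - (h * (Y ^ 2 - Y) * (2 * 12 * 66 + 66 ^ 2 * t)) * ht3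
    have h4 : ∃ b, (1 + (p : ZMod (p ^ 3)) * ν') * (1 + p * ν) = 1 + p * b := ⟨ν' + ν + p * ν' * ν, by ring⟩
    obtain ⟨b, hb⟩ := h4
    rw [h3, pw_mul (P := (p : ZMod (p ^ 3))) hP hh hb]
    rw [hb, ha] at h1
    rw [pw_mul (P := (p : ZMod (p ^ 3))) hP hh (r := 0) (by rw [h1]; ring)]
    unfold pw; ring
  set c := (-1) ^ n * z ^ n * pw h ((p : ZMod (p ^ 3)) * ν) (-h) with hc
  refine ⟨c, ?_, ?_, ?_⟩
  · have e1 : (z ^ n) ^ 2 = 1 + (p : ZMod (p ^ 3)) * ν := by rw [← hz, ← pow_mul]; congr 1; omega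
    have e4 : ((-1 : ZMod (p ^ 3)) ^ n) ^ 2 = 1 := by rw [← pow_mul, mul_comm, pow_mul]; norm_num
    have e2 : pw h ((p : ZMod (p ^ 3)) * ν) (-h) ^ 2 * (1 + (p : ZMod (p ^ 3)) * ν) = 1 := by
      have e3 := pw_nat hν3 hh 1
      rw [pow_one] at e3
      rw [pw_pow hν3 hh, ← e3, ← pw_add hν3 hh]
      have : (((2 : ℕ) : ZMod (p ^ 3)) * -h + ((1 : ℕ) : ZMod (p ^ 3))) = 0 := by push_cast; linear_combination -hh
      rw [this, pw_zero]
    rw [hc, mul_pow, mul_pow, e1, e4]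
    linear_combination e2
  · refine ⟨-h * ν + h * (h ^ 2 + h) * p * ν ^ 2, ?_⟩
    rw [hc]; unfold pw; ring
  · intro a b X
    rw [WS_ex hh a b hz, WS_ex hh a (a * h - b) hz']
    -- split the sums
    have hsplit : ∀ (a b Y w : ZMod (p ^ 3)),
        ∑ j ∈ range p, (a * ((p : ZMod (p ^ 3)) * Y + (j : ZMod (p ^ 3))) + b) * (gX h Y j * w ^ j) =
        ∑ j ∈ range (n + 1), (a * ((p : ZMod (p ^ 3)) * Y + (j : ZMod (p ^ 3))) + b) * (gX h Y j * w ^ j) := by
      intro a b Y w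
      have hr : range p = range ((n + 1) + n) := by congr 1; omega
      rw [hr, Finset.sum_range_add]
      have : ∑ x ∈ range n, (a * ((p : ZMod (p ^ 3)) * Y + ((n + 1 + x : ℕ) : ZMod (p ^ 3))) + b) *
          (gX h Y (n + 1 + x) * w ^ (n + 1 + x)) = 0 := by
        refine sum_eq_zero fun x hx => ?_
        rw [mem_range] at hx
        rw [gX_top hh hn (by omega) Y x (by omega), zero_mul, mul_zero]
      rw [this, add_zero]
    have hrefl : ∑ j ∈ range (n + 1), (a * ((p : ZMod (p ^ 3)) * X + (j : ZMod (p ^ 3))) + b) * (gX h X j * z ^ j) =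
        -(gX h X n * z ^ n) * ∑ k ∈ range (n + 1),
          (a * ((p : ZMod (p ^ 3)) * (-X - h) + (k : ZMod (p ^ 3))) + (a * h - b)) * (gX h (-X - h) k * z' ^ k) := by
      rw [← sum_range_reflect, mul_sum]
      refine sum_congr rfl fun k hk => ?_
      rw [mem_range] at hk
      have h1 := gX_refl hh hn X k (by omega)
      rw [show n + 1 - 1 - k = n - k by omega]
      have h2 : (4096 * z * z') ^ k = 1 := by rw [hzz, one_pow]
      rw [mul_pow, mul_pow] at h2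
      have h3 : z ^ n = z ^ (n - k) * z ^ k := by rw [← pow_add]; congr 1; omega
      have h4 : ((n - k : ℕ) : ZMod (p ^ 3)) = n - k := by
        rw [Nat.cast_sub (by omega)]
      -- the weight
      have h5 : a * ((p : ZMod (p ^ 3)) * X + ((n - k : ℕ) : ZMod (p ^ 3))) + b =
          -(a * ((p : ZMod (p ^ 3)) * (-X - h) + (k : ZMod (p ^ 3))) + (a * h - b)) := by
        rw [h4]
        linear_combination (-a * n) * hh - (a * h) * hpc
      rw [h5, h3]
      set W := a * ((p : ZMod (p ^ 3)) * (-X - h) + (k : ZMod (p ^ 3))) + (a * h - b)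
      linear_combination (-W) * ((z ^ (n - k) * z ^ k * z' ^ k) * h1 - (gX h X (n - k) * z ^ (n - k)) * h2)
    rw [hsplit, hsplit, hrefl, gX_n hp5 hh hn hτ]
    set Sg := ∑ k ∈ range (n + 1),
          (a * ((p : ZMod (p ^ 3)) * (-X - h) + (k : ZMod (p ^ 3))) + (a * h - b)) * (gX h (-X - h) k * z' ^ k)
    have f1 := hE (-X - h)
    have f2 : pw h ((p : ZMod (p ^ 3)) * ν) (-X - h) * pw h ((p : ZMod (p ^ 3)) * ν) (X + h) = 1 := by
      rw [← pw_add hν3 hh]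
      have : (-X - h + (X + h)) = 0 := by ring
      rw [this, pw_zero]
    have f3 : pw h t (12 * (-X - h)) * pw h t (12 * X + 6) = 1 := by
      rw [← pw_add ht3 hh]
      have : (12 * (-X - h) + (12 * X + 6)) = 0 := by linear_combination -6 * hh
      rw [this, pw_zero]
    have f4 : pw h ((p : ZMod (p ^ 3)) * ν) X = pw h ((p : ZMod (p ^ 3)) * ν) (-h) * pw h ((p : ZMod (p ^ 3)) * ν) (X + h) := by
      rw [← pw_add hν3 hh]
      congr 1; ring
    have f5 : pw h ((p : ZMod (p ^ 3)) * ν') (-X - h) = pw h ((p : ZMod (p ^ 3)) * ν) (X + h) * pw h t (12 * X + 6) := by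
      linear_combination (pw h ((p : ZMod (p ^ 3)) * ν) (X + h) * pw h t (12 * X + 6)) * f1 -
        pw h ((p : ZMod (p ^ 3)) * ν') (-X - h) * f2 -
        (pw h ((p : ZMod (p ^ 3)) * ν') (-X - h) * pw h ((p : ZMod (p ^ 3)) * ν) (-X - h) * pw h ((p : ZMod (p ^ 3)) * ν) (X + h)) * f3
    rw [f4, f5, hc]
    ring

/-- the components under the weighted Fricke involution -/
theorem comps_refl (hh : 2 * h = 1) {f g : ℕ → ZMod (p ^ 3)} {c : ZMod (p ^ 3)} (hX : ∀ X, ex h f X = -c * ex h g (-X - h)) :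
    f 0 = -c * (g 0 - h * c1 h g + h ^ 2 * c2 h g) ∧ c1 h f = c * (c1 h g - c2 h g) := by
  have e0 := hX 0
  have e1 := hX 1
  have e2 := hX (-1)
  unfold ex at e0 e1 e2
  refine ⟨?_, ?_⟩
  · linear_combination e0
  · linear_combination h * e1 - h * e2 + (-c * (2 * h * c2 h g - c1 h g) - c1 h f - c * c2 h g) * hh

theorem E3 : Pool.Agent.H547.C9.S_E3 := by
  intro p n _ h z z' hp5 hn hh hzz
  have hzu : IsUnit z := IsUnit.of_mul_eq_one (4096 * z') (by linear_combination hzz)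
  obtain ⟨ν, hz⟩ := fermat_unit hzu
  obtain ⟨c, hc2, ⟨y, hy⟩, hX⟩ := frickeW hp5 hh hn hzz hz
  refine ⟨c, hc2, ?_, fun a b => ?_⟩
  · rw [hy, map_mul, map_mul, map_pow, map_pow, map_neg, map_one, map_add, map_one, map_mul, red_p, zero_mul, add_zero, mul_one]
  · exact comps_refl hh (hX a b)

end Pool.Agent.H75.C9
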